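import Pool.Agent.helper97.IRO.Spec

set_option autoImplicit false
set_option linter.unusedSectionVars false

open MeasureTheory Pool.Agent.LOF Filter Topology

namespace Pool.Agent.IRO

theorem DF3_ind (b : Bool) : 0 ≤ ind b ∧ ind b ≤ 1 := by
  cases b <;> simp [ind]

theorem DF3_prod {ι : Type} (S : Finset ι) (x y : ι → ℝ) (hx : ∀ i, 0 ≤ x i ∧ x i ≤ 1)
    (hy : ∀ i, 0 ≤ y i ∧ y i ≤ 1) : |∏ i ∈ S, x i - ∏ i ∈ S, y i| ≤ ∑ i ∈ S, |x i - y i| := by
  classical
  induction S using Finset.induction_on with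
  | empty => simp
  | insert a S ha ih =>
    rw [Finset.prod_insert ha, Finset.prod_insert ha, Finset.sum_insert ha]
    have h1 : x a * ∏ i ∈ S, x i - y a * ∏ i ∈ S, y i =
        x a * (∏ i ∈ S, x i - ∏ i ∈ S, y i) + (x a - y a) * ∏ i ∈ S, y i := by ring
    rw [h1]
    have h2 : |∏ i ∈ S, y i| ≤ 1 := by
      rw [abs_of_nonneg (Finset.prod_nonneg fun i _ => (hy i).1)]
      exact Finset.prod_le_one (fun i _ => (hy i).1) (fun i _ => (hy i).2)
    have h3 : |x a| ≤ 1 := by
      rw [abs_of_nonneg (hx a).1]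
      exact (hx a).2
    refine (abs_add_le _ _).trans ?_
    rw [abs_mul, abs_mul]
    have h4 : |x a| * |∏ i ∈ S, x i - ∏ i ∈ S, y i| ≤ 1 * |∏ i ∈ S, x i - ∏ i ∈ S, y i| :=
      mul_le_mul_of_nonneg_right h3 (abs_nonneg _)
    have h5 : |x a - y a| * |∏ i ∈ S, y i| ≤ |x a - y a| * 1 :=
      mul_le_mul_of_nonneg_left h2 (abs_nonneg _)
    linarith

/-- bounded measurable functions are integrable -/
theorem DF3_int {Z : Type} [MeasurableSpace Z] (μ : Measure Z) [IsFiniteMeasure μ] (f : Z → ℝ)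
    (hf : Measurable f) (C : ℝ) (hC : ∀ z, |f z| ≤ C) : Integrable f μ :=
  Integrable.of_bound hf.aestronglyMeasurable C (Filter.Eventually.of_forall hC)

theorem DF3_L1 {Z : Type} [MeasurableSpace Z] (μ : Measure Z) [IsFiniteMeasure μ] (f : ℕ → Z → ℝ)
    (hf : ∀ N, Measurable (f N)) (C : ℝ) (hC : ∀ N z, |f N z| ≤ C)
    (h : Tendsto (fun N => ∫ z, (f N z) ^ 2 ∂μ) atTop (𝓝 0)) :
    Tendsto (fun N => ∫ z, |f N z| ∂μ) atTop (𝓝 0) := by
  rw [Metric.tendsto_atTop]
  intro ε hε
  set M : ℝ := μ.real Set.univ with hM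
  have hM0 : 0 ≤ M := measureReal_nonneg
  set δ : ℝ := ε / (2 * (M + 1)) with hδ
  have hδ0 : 0 < δ := by positivity
  obtain ⟨N₀, hN₀⟩ := (Metric.tendsto_atTop.1 h) (δ ^ 2) (by positivity)
  refine ⟨N₀, fun N hN => ?_⟩
  have h1 := hN₀ N hN
  rw [Real.dist_eq, sub_zero] at h1 ⊢
  have h2 : 0 ≤ ∫ z, |f N z| ∂μ := integral_nonneg fun z => abs_nonneg _
  rw [abs_of_nonneg h2]
  have h3 : ∫ z, (f N z) ^ 2 ∂μ < δ ^ 2 := (le_abs_self _).trans_lt h1
  have i1 : Integrable (fun z => (f N z) ^ 2) μ := by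
    refine DF3_int μ _ ((hf N).pow_const 2) (C ^ 2) fun z => ?_
    rw [abs_pow]
    exact pow_le_pow_left₀ (abs_nonneg _) (hC N z) 2
  have h4 : ∫ z, |f N z| ∂μ ≤ ∫ z, (δ + (f N z) ^ 2 / δ) ∂μ := by
    apply integral_mono
    · exact DF3_int μ _ (measurable_norm.comp (hf N)) C (fun z => by rw [abs_abs]; exact hC N z)
    · exact (integrable_const δ).add (i1.div_const δ)
    · intro z
      show |f N z| ≤ δ + (f N z) ^ 2 / δ
      have e1 : δ + (f N z) ^ 2 / δ = (δ ^ 2 + |f N z| ^ 2) / δ := by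
        rw [sq_abs]
        field_simp
      rw [e1, le_div_iff₀ hδ0]
      nlinarith [sq_nonneg (|f N z| - δ), abs_nonneg (f N z), mul_nonneg (abs_nonneg (f N z)) hδ0.le]
  have h5 : ∫ z, (δ + (f N z) ^ 2 / δ) ∂μ = δ * M + (∫ z, (f N z) ^ 2 ∂μ) / δ := by
    rw [integral_add (integrable_const δ) (i1.div_const δ), integral_const, integral_div, smul_eq_mul, mul_comm]
  have h6 : (∫ z, (f N z) ^ 2 ∂μ) / δ < δ := by
    rw [div_lt_iff₀ hδ0]
    nlinarith
  have h7 : δ * (M + 1) < ε := by
    rw [hδ]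
    have : ε / (2 * (M + 1)) * (M + 1) = ε / 2 := by field_simp
    rw [this]
    linarith
  linarith

section
variable {Z : Type} [MeasurableSpace Z] (μ : Measure Z) [IsFiniteMeasure μ] (X : ℕ → Z → Bool)
  (hX : ∀ i, Measurable (X i)) (α : Z → unitInterval) (hα : Measurable α)
  (hL : Tendsto (fun N : ℕ => ∫ z, ((∑ i ∈ Finset.range N, ind (X i z)) / N - (α z).1) ^ 2 ∂μ)
    atTop (𝓝 0))

/-- block averages -/
noncomputable def DF3_A (X : ℕ → Z → Bool) (i N : ℕ) (z : Z) : ℝ :=
  (∑ j ∈ Finset.range N, ind (X (i * N + j) z)) / N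

theorem DF3_A01 (i N : ℕ) (z : Z) : 0 ≤ DF3_A X i N z ∧ DF3_A X i N z ≤ 1 := by
  unfold DF3_A
  have h0 : 0 ≤ ∑ j ∈ Finset.range N, ind (X (i * N + j) z) :=
    Finset.sum_nonneg fun j _ => (DF3_ind _).1
  constructor
  · positivity
  · rcases Nat.eq_zero_or_pos N with rfl | hN
    · simp
    · rw [div_le_one (by exact_mod_cast hN)]
      calc ∑ j ∈ Finset.range N, ind (X (i * N + j) z) ≤ ∑ j ∈ Finset.range N, (1 : ℝ) :=
            Finset.sum_le_sum fun j _ => (DF3_ind _).2
        _ = N := by simp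

include hX in
theorem DF3_Am (i N : ℕ) : Measurable (DF3_A X i N) := by
  unfold DF3_A
  refine Measurable.div_const (Finset.measurable_sum _ fun j _ => ?_) _
  exact (measurable_of_countable ind).comp (hX _)

include hX hα hL in
theorem DF3_blk (i : ℕ) :
    Tendsto (fun N : ℕ => ∫ z, (DF3_A X i N z - (α z).1) ^ 2 ∂μ) atTop (𝓝 0) := by
  have hαm : Measurable fun z => (α z).1 := measurable_subtype_coe.comp hα
  have hI : ∀ k : ℕ, Tendsto (fun N : ℕ => 2 * (k : ℝ) ^ 2 *
      ∫ z, (DF3_A X 0 (k * N) z - (α z).1) ^ 2 ∂μ) atTop (𝓝 0) := by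
    intro k
    rcases Nat.eq_zero_or_pos k with rfl | hk
    · simp
    · have h1 : Tendsto (fun N : ℕ => k * N) atTop atTop :=
        tendsto_atTop_mono (fun N => Nat.le_mul_of_pos_left N hk) tendsto_id
      have h2 := (hL.comp h1).const_mul (2 * (k : ℝ) ^ 2)
      rw [mul_zero] at h2
      refine h2.congr fun N => ?_
      simp only [Function.comp, DF3_A, zero_mul, zero_add]
  have h3 := (hI (i + 1)).add (hI i)
  rw [add_zero] at h3
  refine squeeze_zero (fun N => integral_nonneg fun z => sq_nonneg _) (fun N => ?_) h3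
  have hint : ∀ k M : ℕ, Integrable (fun z => (DF3_A X k M z - (α z).1) ^ 2) μ := by
    intro k M
    refine DF3_int μ _ (((DF3_Am X hX k M).sub hαm).pow_const 2) 1 fun z => ?_
    have h1 := DF3_A01 X k M z
    have h2 := (α z).2
    rw [abs_pow]
    apply pow_le_one₀ (abs_nonneg _)
    rw [abs_le]
    constructor <;> linarith [h1.1, h1.2, h2.1, h2.2]
  rw [← integral_const_mul, ← integral_const_mul, ← integral_add ((hint _ _).const_mul _) ((hint _ _).const_mul _)]
  apply integral_mono (hint _ _) (((hint _ _).const_mul _).add ((hint _ _).const_mul _))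
  intro z
  show (DF3_A X i N z - (α z).1) ^ 2 ≤ 2 * ((i + 1 : ℕ) : ℝ) ^ 2 * (DF3_A X 0 ((i + 1) * N) z - (α z).1) ^ 2 +
    2 * (i : ℝ) ^ 2 * (DF3_A X 0 (i * N) z - (α z).1) ^ 2
  have key : DF3_A X i N z = ((i + 1 : ℕ) : ℝ) * DF3_A X 0 ((i + 1) * N) z - (i : ℝ) * DF3_A X 0 (i * N) z := by
    have hk : ∀ k : ℕ, (k : ℝ) * DF3_A X 0 (k * N) z = (∑ j ∈ Finset.range (k * N), ind (X j z)) / N := by
      intro k
      unfold DF3_A
      rcases Nat.eq_zero_or_pos k with rfl | hk
      · simp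
      · rcases Nat.eq_zero_or_pos N with rfl | hN
        · simp
        · have : (k : ℝ) ≠ 0 := by positivity
          have : (N : ℝ) ≠ 0 := by positivity
          push_cast
          simp only [zero_mul, zero_add]
          field_simp
    rw [hk, hk, add_mul, one_mul, Finset.sum_range_add]
    unfold DF3_A
    ring
  rw [key]
  push_cast
  nlinarith [sq_nonneg (((i : ℝ) + 1) * (DF3_A X 0 ((i + 1) * N) z - (α z).1) +
    (i : ℝ) * (DF3_A X 0 (i * N) z - (α z).1))]

include hX in
theorem DF3_C {n : ℕ} (s : Fin n → Bool) (B : Set Z) (P : ℝ)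
    (hP : ∀ k : Fin n → ℕ, StrictMono k → μ.real (B ∩ {z | ∀ i, X (k i) z = s i}) = P)
    (N : ℕ) (hN : 0 < N) :
    ∫ z in B, ∏ i : Fin n, (if s i then DF3_A X i N z else 1 - DF3_A X i N z) ∂μ = P := by
  classical
  have hN0 : (N : ℝ) ≠ 0 := by positivity
  have e1 : ∀ (i : Fin n) (z : Z), (if s i then DF3_A X i N z else 1 - DF3_A X i N z) =
      (∑ j : Fin N, if X (i * N + j) z = s i then (1 : ℝ) else 0) / N := by
    intro i z
    unfold DF3_A
    cases hs : s i
    · have h1 : ∑ j : Fin N, (if X (i * N + j) z = false then (1 : ℝ) else 0) =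
          ∑ j ∈ Finset.range N, (1 - ind (X (i * N + j) z)) := by
        rw [← Fin.sum_univ_eq_sum_range (fun j => 1 - ind (X (i * N + j) z)) N]
        apply Finset.sum_congr rfl
        intro j _
        cases X (i * N + j) z <;> simp [ind]
      rw [h1, Finset.sum_sub_distrib]
      simp only [Bool.false_eq_true, if_false, Finset.sum_const, Finset.card_range, nsmul_eq_mul, mul_one]
      rw [sub_div, div_self hN0]
    · have h1 : ∑ j : Fin N, (if X (i * N + j) z = true then (1 : ℝ) else 0) =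
          ∑ j ∈ Finset.range N, ind (X (i * N + j) z) := by
        rw [← Fin.sum_univ_eq_sum_range (fun j => ind (X (i * N + j) z)) N]
        apply Finset.sum_congr rfl
        intro j _
        cases X (i * N + j) z <;> simp [ind]
      rw [h1]
      simp
  have e2 : ∀ z : Z, ∏ i : Fin n, (if s i then DF3_A X i N z else 1 - DF3_A X i N z) =
      (∑ J : Fin n → Fin N, if (∀ i, X (i * N + J i) z = s i) then (1 : ℝ) else 0) / (N : ℝ) ^ n := by
    intro z
    simp only [e1]
    rw [Finset.prod_div_distrib, Finset.prod_univ_sum, Fintype.piFinset_univ]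
    congr 1
    · apply Finset.sum_congr rfl
      intro J _
      rw [Finset.prod_ite_zero]
      simp
    · simp
  have hm : ∀ J : Fin n → Fin N, MeasurableSet {z | ∀ i : Fin n, X (i * N + J i) z = s i} := by
    intro J
    have : {z | ∀ i : Fin n, X (i * N + J i) z = s i} = ⋂ i : Fin n, (X (i * N + J i)) ⁻¹' {s i} := by
      ext z; simp
    rw [this]
    exact MeasurableSet.iInter fun i => (hX _) (measurableSet_singleton _)
  have e3 : ∀ (J : Fin n → Fin N) (z : Z), (if (∀ i, X (i * N + J i) z = s i) then (1 : ℝ) else 0) =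
      Set.indicator {z | ∀ i : Fin n, X (i * N + J i) z = s i} (fun _ => (1 : ℝ)) z := by
    intro J z
    rw [Set.indicator_apply]
    rfl
  simp only [e2]
  rw [integral_div, integral_finsetSum]
  · have e4 : ∀ J : Fin n → Fin N,
        ∫ z in B, (if (∀ i, X (i * N + J i) z = s i) then (1 : ℝ) else 0) ∂μ = P := by
      intro J
      simp only [e3]
      rw [integral_indicator (hm J), setIntegral_const, smul_eq_mul, mul_one, measureReal_restrict_apply (hm J),
        Set.inter_comm]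
      apply hP (fun i => i * N + J i)
      intro i i' hii
      have h1 : (i : ℕ) + 1 ≤ i' := hii
      have h2 : ((i : ℕ) + 1) * N ≤ i' * N := Nat.mul_le_mul_right N h1
      have h3 := (J i).2
      have h4 : ((i : ℕ) + 1) * N = i * N + N := by ring
      show (i : ℕ) * N + J i < i' * N + J i'
      omega
    simp only [e4]
    rw [Finset.sum_const, Finset.card_univ, Fintype.card_fun, Fintype.card_fin, Fintype.card_fin, nsmul_eq_mul]
    push_cast
    field_simp
  · intro J _
    simp only [e3]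
    exact (integrable_const (1 : ℝ)).indicator (hm J)

include hX hα hL in
theorem DF3_abs {n : ℕ} (s : Fin n → Bool) (B : Set Z) (P : ℝ)
    (hP : ∀ k : Fin n → ℕ, StrictMono k → μ.real (B ∩ {z | ∀ i, X (k i) z = s i}) = P) :
    P = ∫ z in B, ∏ i : Fin n, (if s i then (α z).1 else 1 - (α z).1) ∂μ := by
  have hαm : Measurable fun z => (α z).1 := measurable_subtype_coe.comp hα
  have hb : ∀ (i N : ℕ) (z : Z), |DF3_A X i N z - (α z).1| ≤ 1 := by
    intro i N z
    have h1 := DF3_A01 X i N z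
    have h2 := (α z).2
    rw [abs_le]
    constructor <;> linarith [h1.1, h1.2, h2.1, h2.2]
  have hT : Tendsto (fun N : ℕ => ∑ i : Fin n, ∫ z, |DF3_A X i N z - (α z).1| ∂μ) atTop (𝓝 0) := by
    have h1 : Tendsto (fun N : ℕ => ∑ i : Fin n, ∫ z, |DF3_A X i N z - (α z).1| ∂μ) atTop
        (𝓝 (∑ i : Fin n, (0 : ℝ))) := by
      apply tendsto_finsetSum
      intro i _
      exact DF3_L1 μ (fun N z => DF3_A X i N z - (α z).1) (fun N => (DF3_Am X hX i N).sub hαm) 1
        (fun N z => hb i N z) (DF3_blk μ X hX α hα hL i)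
    simpa using h1
  have hle : ∀ N : ℕ, 0 < N → |P - ∫ z in B, ∏ i : Fin n, (if s i then (α z).1 else 1 - (α z).1) ∂μ| ≤
      ∑ i : Fin n, ∫ z, |DF3_A X i N z - (α z).1| ∂μ := by
    intro N hN
    rw [← DF3_C μ X hX s B P hP N hN]
    have x01 : ∀ (z : Z) (i : Fin n), 0 ≤ (if s i then DF3_A X i N z else 1 - DF3_A X i N z) ∧
        (if s i then DF3_A X i N z else 1 - DF3_A X i N z) ≤ 1 := by
      intro z i
      have h1 := DF3_A01 X i N z
      split_ifs
      · exact h1
      · constructor <;> linarith [h1.1, h1.2]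
    have y01 : ∀ (z : Z) (i : Fin n), 0 ≤ (if s i then (α z).1 else 1 - (α z).1) ∧
        (if s i then (α z).1 else 1 - (α z).1) ≤ 1 := by
      intro z i
      have h1 := (α z).2
      split_ifs
      · exact h1
      · constructor <;> linarith [h1.1, h1.2]
    have mx : Measurable fun z => ∏ i : Fin n, (if s i then DF3_A X i N z else 1 - DF3_A X i N z) := by
      apply Finset.measurable_prod
      intro i _
      split_ifs
      · exact DF3_Am X hX i N
      · exact measurable_const.sub (DF3_Am X hX i N)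
    have my : Measurable fun z => ∏ i : Fin n, (if s i then (α z).1 else 1 - (α z).1) := by
      apply Finset.measurable_prod
      intro i _
      split_ifs
      · exact hαm
      · exact measurable_const.sub hαm
    have bnd : ∀ (x : Fin n → ℝ), (∀ i, 0 ≤ x i ∧ x i ≤ 1) → |∏ i, x i| ≤ 1 := by
      intro x hx
      rw [abs_of_nonneg (Finset.prod_nonneg fun i _ => (hx i).1)]
      exact Finset.prod_le_one (fun i _ => (hx i).1) (fun i _ => (hx i).2)
    have ix : Integrable (fun z => ∏ i : Fin n, (if s i then DF3_A X i N z else 1 - DF3_A X i N z))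
        (μ.restrict B) := DF3_int _ _ mx 1 fun z => bnd _ (x01 z)
    have iy : Integrable (fun z => ∏ i : Fin n, (if s i then (α z).1 else 1 - (α z).1))
        (μ.restrict B) := DF3_int _ _ my 1 fun z => bnd _ (y01 z)
    rw [← integral_sub ix iy]
    refine (abs_integral_le_integral_abs).trans ?_
    have ia : ∀ i : Fin n, Integrable (fun z => |DF3_A X i N z - (α z).1|) μ := by
      intro i
      refine DF3_int μ _ (measurable_norm.comp ((DF3_Am X hX i N).sub hαm)) 1 fun z => ?_
      rw [abs_abs]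
      exact hb i N z
    have hs : Integrable (fun z => ∑ i : Fin n, |DF3_A X i N z - (α z).1|) μ :=
      integrable_finsetSum _ fun i _ => ia i
    rw [← integral_finsetSum _ fun i _ => ia i]
    have hset : ∫ z in B, ∑ i : Fin n, |DF3_A X i N z - (α z).1| ∂μ ≤
        ∫ z, ∑ i : Fin n, |DF3_A X i N z - (α z).1| ∂μ :=
      setIntegral_le_integral hs (Filter.Eventually.of_forall fun z =>
        Finset.sum_nonneg fun i _ => abs_nonneg _)
    refine le_trans ?_ hset
    apply integral_mono ((ix.sub iy).abs) hs.integrableOn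
    intro z
    refine (DF3_prod Finset.univ _ _ (x01 z) (y01 z)).trans (le_of_eq ?_)
    apply Finset.sum_congr rfl
    intro i _
    split_ifs
    · rfl
    · rw [← abs_neg]
      congr 1
      ring
  have h0 : |P - ∫ z in B, ∏ i : Fin n, (if s i then (α z).1 else 1 - (α z).1) ∂μ| ≤ 0 := by
    apply ge_of_tendsto hT
    filter_upwards [eventually_gt_atTop 0] with N hN using hle N hN
  have h1 := abs_nonpos_iff.1 h0
  linarith

end

/-- an increasing sequence in `D` -/
theorem DF3_seq : ∃ e : ℕ → D, StrictMono fun i => (e i).1 := by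
  refine ⟨fun i => ⟨1 - 1 / 2 ^ (i + 1), (IsDyadic.int 1 |>.sub ⟨1, i + 1, by simp⟩ : IsDyadic (((1 : ℤ) : ℝ) - 1 / 2 ^ (i + 1))) |> fun h => by simpa using h, ?_, ?_⟩, ?_⟩
  · have : (1 : ℝ) / 2 ^ (i + 1) < 1 := by
      rw [div_lt_one (by positivity)]
      exact one_lt_pow₀ (by norm_num) (by omega)
    linarith
  · have : (0 : ℝ) < 1 / 2 ^ (i + 1) := by positivity
    linarith
  · intro i j hij
    show (1 : ℝ) - 1 / 2 ^ (i + 1) < 1 - 1 / 2 ^ (j + 1)
    have : (1 : ℝ) / 2 ^ (j + 1) < 1 / 2 ^ (i + 1) := by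
      apply one_div_lt_one_div_of_lt (by positivity)
      exact pow_lt_pow_right₀ (by norm_num) (by omega)
    linarith

theorem DF3 (h1 : DF1_stmt) (h2 : DF2_stmt) : DF3_stmt := by
  intro Ω _ μ _ hinv
  obtain ⟨e, he⟩ := DF3_seq
  obtain ⟨α, hα, hL⟩ := h2 Ω μ hinv e he
  refine ⟨α, hα, ?_⟩
  intro n d s B hB hd
  have hX : ∀ i : ℕ, Measurable (fun z : Ω × (D → Bool) => z.2 (e i)) := fun i =>
    (measurable_pi_apply (e i)).comp measurable_snd
  apply DF3_abs μ (fun i z => z.2 (e i)) hX α hα hL s {z | z.1 ∈ B}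
  intro k hk
  have h3 := h1 Ω μ hinv n (fun i => e (k i)) d s B hB (fun i j hij => he (hk hij)) hd
  rw [measureReal_def, ← h3]
  rfl

end Pool.Agent.IRO
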